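import Mathlib

namespace Pool.Agent.H.MP_6a54e9_co

def u (i : Fin 9) (l : Fin 12) : ℤ :=
  if i.1 < 6 then (if l.1 = i.1 then 5 else 0)
  else if l.1 = 2 * i.1 - 6 then 3 else if l.1 = 2 * i.1 - 5 then 4 else 0

def w (i : Fin 9) (l : Fin 12) : ℤ := u i l.rev

noncomputable def pt (z : Fin 12 → ℤ) : EuclideanSpace ℝ (Fin 12) :=
  WithLp.toLp 2 fun l => z l / √50

theorem dist_pt (z y : Fin 12 → ℤ) :
    dist (pt z) (pt y) = √(((∑ l, (z l - y l) ^ 2 : ℤ) : ℝ) / 50) := by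
  rw [EuclideanSpace.dist_eq]
  congr 1
  push_cast
  rw [Finset.sum_div]
  refine Finset.sum_congr rfl fun l _ => ?_
  simp only [pt, Real.dist_eq, sq_abs]
  rw [← sub_div, div_pow, Real.sq_sqrt (by norm_num)]

theorem eq1 {z y : Fin 12 → ℤ} (h : ∑ l, (z l - y l) ^ 2 = 50) : dist (pt z) (pt y) = 1 := by
  rw [dist_pt, h]; norm_num

theorem le1 {z y : Fin 12 → ℤ} (h : ∑ l, (z l - y l) ^ 2 ≤ 50) : dist (pt z) (pt y) ≤ 1 := by
  rw [dist_pt, Real.sqrt_le_one, div_le_one (by norm_num)]; exact_mod_cast h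

theorem ne {z y : Fin 12 → ℤ} (h : 0 < ∑ l, (z l - y l) ^ 2) : pt z ≠ pt y := by
  rw [← dist_pos, dist_pt, Real.sqrt_pos]
  exact div_pos (by exact_mod_cast h) (by norm_num)

theorem ex : ∃ S T : Finset (EuclideanSpace ℝ (Fin 12)), S.card = 9 ∧ T.card = 9 ∧
    (∀ x ∈ S, ∀ y ∈ S, x ≠ y → dist x y = 1) ∧ (∀ x ∈ T, ∀ y ∈ T, x ≠ y → dist x y = 1) ∧
    (∀ x ∈ S, ∀ y ∈ T, dist x y ≤ 1 ∧ x ≠ y) := by
  classical
  have a : ∀ i j, i ≠ j → dist (pt (u i)) (pt (u j)) = 1 := fun i j h =>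
    eq1 ((by decide +kernel : ∀ i j, i ≠ j → ∑ l, (u i l - u j l) ^ 2 = 50) i j h)
  have b : ∀ i j, i ≠ j → dist (pt (w i)) (pt (w j)) = 1 := fun i j h =>
    eq1 ((by decide +kernel : ∀ i j, i ≠ j → ∑ l, (w i l - w j l) ^ 2 = 50) i j h)
  have c := (by decide +kernel : ∀ i j, ∑ l, (u i l - w j l) ^ 2 ≤ 50 ∧ 0 < ∑ l, (u i l - w j l) ^ 2)
  have I : ∀ p : Fin 9 → EuclideanSpace ℝ (Fin 12), (∀ i j, i ≠ j → dist (p i) (p j) = 1) →
      (Finset.univ.image p).card = 9 ∧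
      ∀ x ∈ Finset.univ.image p, ∀ y ∈ Finset.univ.image p, x ≠ y → dist x y = 1 := by
    intro p h
    refine ⟨(Finset.card_image_of_injective _ fun i j e => ?_).trans (by simp), ?_⟩
    · by_contra n
      simpa [e] using h i j n
    · simp only [Finset.mem_image, Finset.mem_univ, true_and]
      rintro _ ⟨i, rfl⟩ _ ⟨j, rfl⟩ n
      exact h i j fun e => n (e ▸ rfl)
  refine ⟨_, _, (I _ a).1, (I _ b).1, (I _ a).2, (I _ b).2, ?_⟩
  simp only [Finset.mem_image, Finset.mem_univ, true_and]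
  rintro _ ⟨i, rfl⟩ _ ⟨j, rfl⟩
  exact ⟨le1 (c i j).1, ne (c i j).2⟩

end Pool.Agent.H.MP_6a54e9_co
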